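import Pool.Agent.N251.LF.Tuples
import Pool.Agent.N251.LF.Fields
import Pool.Agent.N760.SC.A

/-!
# Properties of tuples of natural numbers which are bad for few tuples at every scale, near the values of generic linear forms
-/

set_option autoImplicit false

namespace Pool.Agent.T9h86.MZ

open MeasureTheory
open Pool.Agent.N251.LF (Fam tuple_windows null_of_dim)
open Pool.Agent.N760.SC (BadTuples count_scales)

/-- powers of a constant at close scales -/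
lemma pow_bound (C : ℝ) {N T : ℕ} (h : T ≤ 2 * N) : C ^ T ≤ ((max |C| 1) ^ 2) ^ N := by
  have h5 : (1 : ℝ) ≤ max |C| 1 := le_max_right _ _
  calc C ^ T ≤ |C ^ T| := le_abs_self _
    _ = |C| ^ T := abs_pow C T
    _ ≤ (max |C| 1) ^ T := pow_le_pow_left₀ (abs_nonneg C) (le_max_left _ _) T
    _ ≤ (max |C| 1) ^ (2 * N) := pow_le_pow_right₀ h5 h
    _ = _ := pow_mul _ _ _

/-- at most `K N ^ (k - 1)` tuples in `[N, κ N] ^ k` have the property `E (C ^ N)`, for large `N` -/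
def FewAll {k : ℕ} (E : ℝ → (Fin k → ℕ) → Prop) : Prop :=
  ∀ κ : ℕ, ∃ K : ℕ, ∀ C : ℝ, ∃ N₀ : ℕ, ∀ N : ℕ, N₀ ≤ N →
    {s : Fin k → ℕ | (∀ j, N ≤ s j ∧ s j ≤ κ * N) ∧ E (C ^ N) s}.ncard ≤ K * N ^ (k - 1)

/-- the count of the bad tuples, for a property `E H s` which is monotone in `H`, at `H = C ^ T` -/
theorem count_powers {k : ℕ} (hk : 1 ≤ k) {E : ℝ → (Fin k → ℕ) → Prop} (hmono : ∀ H H' s, H ≤ H' → E H s → E H' s)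
    (hfew : FewAll E) (κ : ℕ) (C : ℝ) (ε : ℝ) (hε : 0 < ε) :
    ∃ C₀ : ℝ, 0 ≤ C₀ ∧ ∀ X : ℕ, 1 ≤ X →
      ({s : Fin k → ℕ | s ∈ BadTuples κ (fun T s => E (C ^ T) s) ∧ ∀ i, s i ≤ X}.ncard : ℝ) ≤
        C₀ * (X : ℝ) ^ ((k : ℝ) - 1 + ε) := by
  obtain ⟨K, hK⟩ := hfew (2 * κ)
  obtain ⟨N₁, hN₁⟩ := hK ((max |C| 1) ^ 2)
  exact count_scales hk κ (fun T s => E (C ^ T) s) (fun N s => E (((max |C| 1) ^ 2) ^ N) s)
    (fun N T s _ h2 h3 => hmono _ _ s (pow_bound C h2.le) h3) ⟨K, N₁, hN₁⟩ ε hε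

/-- for all cones, all `C` and `c`, for all but finitely many `a`, no tuple `s` of natural numbers within `c ‖v_a‖ ^ θ` of
`α v_a` in the cone `T ≤ s_l ≤ κ T`, `T ≥ 1`, has the property `E (C ^ T)` -/
def NoneNear {k n : ℕ} {ι : Type} (v : ι → Fin n → ℝ) (θ : ℝ) (E : ℝ → (Fin k → ℕ) → Prop)
    (α : Fin k × Fin n → ℝ) : Prop :=
  ∀ (κ : ℕ) (C c : ℝ), {a | ∃ (s : Fin k → ℕ) (T : ℕ), 1 ≤ T ∧ (∀ l, T ≤ s l ∧ s l ≤ κ * T) ∧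
    (∀ l, |(s l : ℝ) - ∑ j, α (l, j) * v a j| ≤ c * ‖v a‖ ^ θ) ∧ E (C ^ T) s}.Finite

/-- **One property.** -/
theorem lin_one {k : ℕ} (hk : 1 ≤ k) {E : ℝ → (Fin k → ℕ) → Prop} (hmono : ∀ H H' s, H ≤ H' → E H s → E H' s)
    (hfew : FewAll E) {n : ℕ} {ι : Type} (v : ι → Fin n → ℝ) {τ θ : ℝ} (hv : Fam v τ) (hτ : 0 ≤ τ) (hθ : θ < 1) :
    ∃ E₀ : Set (Fin k × Fin n → ℝ),
      dimH E₀ ≤ ENNReal.ofReal ((k : ℝ) * ((n : ℝ) - 1) + ((k : ℝ) - 1 + τ) / (1 - θ)) ∧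
      ∀ α, α ∉ E₀ → NoneNear v θ E α := by
  have hk1 : (1 : ℝ) ≤ k := by exact_mod_cast hk
  have key : ∀ p : ℕ × ℕ, ∃ E₀ : Set (Fin k × Fin n → ℝ),
      dimH E₀ ≤ ENNReal.ofReal ((k : ℝ) * ((n : ℝ) - 1) + ((k : ℝ) - 1 + τ) / (1 - θ)) ∧
      ∀ α, α ∉ E₀ → ∀ c : ℝ, {i | ∃ t ∈ BadTuples p.1 (fun T s => E ((p.2 : ℝ) ^ T) s),
        ∀ l, |(t l : ℝ) - ∑ j, α (l, j) * v i j| ≤ c * ‖v i‖ ^ θ}.Finite := by
    intro p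
    refine tuple_windows (BadTuples p.1 (fun T s => E ((p.2 : ℝ) ^ T) s)) (fun s l => (s l : ℝ)) v (s := (k : ℝ) - 1)
      (by linarith) hτ hθ hv (fun ε hε => ?_)
    obtain ⟨C₀, hC₀, h⟩ := count_powers hk hmono hfew p.1 (p.2 : ℝ) ε hε
    refine ⟨C₀, fun X hX => ?_⟩
    have hX1 : 1 ≤ ⌊X⌋₊ := Nat.le_floor (by exact_mod_cast hX)
    have hX0 : 0 ≤ X := by linarith
    have hfin : {s : Fin k → ℕ | s ∈ BadTuples p.1 (fun T s => E ((p.2 : ℝ) ^ T) s) ∧ ∀ i, s i ≤ ⌊X⌋₊}.Finite := by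
      refine (Set.Finite.pi' (t := fun _ : Fin k => Set.Iic ⌊X⌋₊) fun _ => Set.finite_Iic _).subset ?_
      intro s hs j
      exact hs.2 j
    have hsub : {t : Fin k → ℕ | t ∈ BadTuples p.1 (fun T s => E ((p.2 : ℝ) ^ T) s) ∧ ∀ l, |(t l : ℝ)| ≤ X} ⊆
        {s : Fin k → ℕ | s ∈ BadTuples p.1 (fun T s => E ((p.2 : ℝ) ^ T) s) ∧ ∀ i, s i ≤ ⌊X⌋₊} := by
      rintro s ⟨h1, h2⟩
      refine ⟨h1, fun i => Nat.le_floor ?_⟩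
      exact (le_abs_self _).trans (h2 i)
    refine ⟨hfin.subset hsub, ?_⟩
    calc _ ≤ (({s : Fin k → ℕ | s ∈ BadTuples p.1 (fun T s => E ((p.2 : ℝ) ^ T) s) ∧ ∀ i, s i ≤ ⌊X⌋₊}.ncard : ℕ) : ℝ) := by
          exact_mod_cast Set.ncard_le_ncard hsub hfin
      _ ≤ C₀ * ((⌊X⌋₊ : ℕ) : ℝ) ^ ((k : ℝ) - 1 + ε) := h ⌊X⌋₊ hX1
      _ ≤ C₀ * X ^ ((k : ℝ) - 1 + ε) := mul_le_mul_of_nonneg_left
          (Real.rpow_le_rpow (Nat.cast_nonneg _) (Nat.floor_le hX0) (by linarith)) hC₀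
  choose E₀ hE₀ hE₁ using key
  refine ⟨⋃ p, E₀ p, ?_, fun α hα κ C c => ?_⟩
  · rw [dimH_iUnion]
    exact iSup_le hE₀
  · obtain ⟨B, hB⟩ := exists_nat_ge |C|
    have h1 : α ∉ E₀ (κ, B) := fun h => hα (Set.mem_iUnion.2 ⟨_, h⟩)
    refine (hE₁ (κ, B) α h1 c).subset ?_
    rintro a ⟨s, T, hT, h2, h3, h4⟩
    refine ⟨s, ⟨T, hT, h2, hmono _ _ s ?_ h4⟩, h3⟩
    calc C ^ T ≤ |C ^ T| := le_abs_self _
      _ = |C| ^ T := abs_pow C T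
      _ ≤ (B : ℝ) ^ T := pow_le_pow_left₀ (abs_nonneg C) hB T

/-- **Countably many properties.** -/
theorem lin_many {k : ℕ} (hk : 1 ≤ k) {I : Type} [Countable I] {E : I → ℝ → (Fin k → ℕ) → Prop}
    (hmono : ∀ i, ∀ H H' s, H ≤ H' → E i H s → E i H' s)
    (hfew : ∀ i, FewAll (E i)) {n : ℕ} {ι : Type} (v : ι → Fin n → ℝ) {τ θ : ℝ} (hv : Fam v τ) (hτ : 0 ≤ τ)
    (hθ : θ < 1) :
    ∃ E₀ : Set (Fin k × Fin n → ℝ),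
      dimH E₀ ≤ ENNReal.ofReal ((k : ℝ) * ((n : ℝ) - 1) + ((k : ℝ) - 1 + τ) / (1 - θ)) ∧
      ∀ α, α ∉ E₀ → ∀ i, NoneNear v θ (E i) α := by
  choose E₀ hE₀ hE₁ using fun i => lin_one hk (hmono i) (hfew i) v hv hτ hθ
  refine ⟨⋃ i, E₀ i, ?_, fun α hα i => hE₁ i α (fun h => hα (Set.mem_iUnion.2 ⟨i, h⟩))⟩
  rw [dimH_iUnion]
  exact iSup_le hE₀

/-- the exceptional set is a null set if `τ + k θ < 1` -/
theorem null_set {k n : ℕ} (hk : 1 ≤ k) (hn : 1 ≤ n) {τ θ : ℝ} (hθ : θ < 1) (h : τ + k * θ < 1)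
    {E₀ : Set (Fin k × Fin n → ℝ)}
    (hE₀ : dimH E₀ ≤ ENNReal.ofReal ((k : ℝ) * ((n : ℝ) - 1) + ((k : ℝ) - 1 + τ) / (1 - θ))) : volume E₀ = 0 := by
  refine null_of_dim hE₀ ?_ ?_
  · rw [Fintype.card_prod, Fintype.card_fin, Fintype.card_fin]
    push_cast
    have h1 : ((k : ℝ) - 1 + τ) / (1 - θ) < k := by
      rw [div_lt_iff₀ (by linarith)]
      linarith
    linarith
  · rw [Fintype.card_prod, Fintype.card_fin, Fintype.card_fin]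
    positivity

end Pool.Agent.T9h86.MZ
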