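import Pool.Agent.T9h59.OR.B
import Pool.Agent.N760.SC.A

/-!
# Tuples near the values of expanding sequences: counts in dyadic boxes
-/

set_option autoImplicit false

namespace Pool.Agent.T9h86.MZ

open Finset Classical
open Pool.Agent.N733.TG (Expanding step_sum)

/-- the number of the `v ≥ 1` in a finite set with `|x - G v| ≤ w` -/
lemma card_window {G : ℕ → ℝ} {a : ℝ} (ha : 0 < a) (hstep : ∀ v : ℕ, 1 ≤ v → a ≤ G (v + 1) - G v) (x w : ℝ) (hw : 0 ≤ w)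
    (V : Finset ℕ) (hV : ∀ v ∈ V, 1 ≤ v ∧ |x - G v| ≤ w) : (V.card : ℝ) ≤ 2 * w / a + 1 := by
  rcases V.eq_empty_or_nonempty with h | h
  · rw [h, card_empty, Nat.cast_zero]
    positivity
  · obtain ⟨m, hm⟩ : ∃ m, m = V.min' h := ⟨_, rfl⟩
    obtain ⟨M, hM⟩ : ∃ M, M = V.max' h := ⟨_, rfl⟩
    have hmV : m ∈ V := by rw [hm]; exact min'_mem _ _
    have hMV : M ∈ V := by rw [hM]; exact max'_mem _ _
    have hmM : m ≤ M := by rw [hm, hM]; exact min'_le_max' _ _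
    have h1 := step_sum hstep (hV m hmV).1 hmM
    have h2 := abs_le.1 (hV m hmV).2
    have h3 := abs_le.1 (hV M hMV).2
    have h4 : a * ((M - m : ℕ) : ℝ) ≤ 2 * w := by linarith
    have h5 : V ⊆ Icc m M := by
      intro v hv
      rw [mem_Icc, hm, hM]
      exact ⟨min'_le _ _ hv, le_max' _ _ hv⟩
    have h6 : V.card ≤ (M - m) + 1 := by
      refine (card_le_card h5).trans ?_
      rw [Nat.card_Icc]
      omega
    have h7 : ((M - m : ℕ) : ℝ) ≤ 2 * w / a := by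
      rw [le_div_iff₀ ha]
      linarith
    calc (V.card : ℝ) ≤ (((M - m) + 1 : ℕ) : ℝ) := by exact_mod_cast h6
      _ = ((M - m : ℕ) : ℝ) + 1 := by push_cast; ring
      _ ≤ 2 * w / a + 1 := by linarith

/-- the tuples `n` such that some `s` in `W` has `|s_i - G_i (n_i)| ≤ n_i ^ θ` for all `i` -/
def NearGT {k : ℕ} (W : Set (Fin k → ℕ)) (G : Fin k → ℕ → ℝ) (θ : ℝ) : Set (Fin k → ℕ) :=
  {n | ∃ s ∈ W, ∀ i, |(s i : ℝ) - G i (n i)| ≤ (n i : ℝ) ^ θ}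

/-- all coordinates of the elements of `W` are comparable -/
def Cone {k : ℕ} (κ : ℕ) (W : Set (Fin k → ℕ)) : Prop := ∀ s ∈ W, ∀ i l, s i ≤ κ * s l

/-- **Counts in dyadic boxes.** -/
theorem box_count {k : ℕ} (hk : 1 ≤ k) {W : Set (Fin k → ℕ)} {κ : ℕ} (hcone : Cone κ W) {ρ C₀ : ℝ} (hρ : 0 ≤ ρ)
    (hC₀ : 0 ≤ C₀)
    (hW : ∀ X : ℕ, 1 ≤ X → ({s : Fin k → ℕ | s ∈ W ∧ ∀ i, s i ≤ X}.ncard : ℝ) ≤ C₀ * (X : ℝ) ^ ρ)
    {G : Fin k → ℕ → ℝ} {d : ℝ} (hG : ∀ i, Expanding (G i) d) {θ : ℝ} (hθ : 0 ≤ θ) (hθ1 : θ ≤ 1) :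
    ∃ C₁ : ℝ, 0 ≤ C₁ ∧ ∀ (j : Fin k → ℕ) (V : Finset (Fin k → ℕ)),
      (∀ n ∈ V, n ∈ NearGT W G θ ∧ ∀ i, 2 ^ j i ≤ n i ∧ n i ≤ 2 ^ (j i + 1)) →
      (V.card : ℝ) ≤ C₁ * ∏ i, ((2 : ℝ) ^ (j i + 1)) ^ (θ + d * ρ / k) := by
  have hk0 : (0 : ℝ) < k := by exact_mod_cast (by omega : 0 < k)
  have i0 : Fin k := ⟨0, by omega⟩
  have hd : 1 ≤ d := (hG i0).one_le
  choose a ha hstep using fun i => (hG i).step
  choose B hB using fun i => (hG i).growth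
  obtain ⟨R, hR⟩ : ∃ R : ℝ, R = (κ + 1) * (∑ i, |B i| + 1) := ⟨_, rfl⟩
  have hR1 : 1 ≤ R := by
    rw [hR]
    have h1 : (0 : ℝ) ≤ κ := Nat.cast_nonneg _
    have h2 : 0 ≤ ∑ i, |B i| := sum_nonneg fun i _ => abs_nonneg _
    nlinarith
  have hBR : ∀ i, ((κ : ℝ) + 1) * (|B i| + 1) ≤ R := by
    intro i
    rw [hR]
    have h2 : |B i| ≤ ∑ i, |B i| := single_le_sum (f := fun i => |B i|) (fun i _ => abs_nonneg _) (mem_univ i)
    gcongr
  refine ⟨C₀ * R ^ ρ * ∏ i, (2 / a i + 1), ?_, fun j V hV => ?_⟩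
  · have : ∀ i, 0 ≤ 2 / a i + 1 := fun i => by have := ha i; positivity
    have := prod_nonneg (s := univ) (fun i _ => this i)
    positivity
  obtain ⟨Y, hY⟩ : ∃ Y : Fin k → ℝ, Y = fun i => (2 : ℝ) ^ (j i + 1) := ⟨_, rfl⟩
  have hYi : ∀ i, (2 : ℝ) ^ (j i + 1) = Y i := fun i => by rw [hY]
  have hY1 : ∀ i, 1 ≤ Y i := by
    intro i
    rw [hY]
    exact one_le_pow₀ (by norm_num)
  have hne : Nonempty (Fin k) := ⟨i0⟩
  obtain ⟨i1, hi1⟩ := Finite.exists_min (α := Fin k) Y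
  obtain ⟨m, hm⟩ : ∃ m, m = Y i1 := ⟨_, rfl⟩
  have hm1 : 1 ≤ m := by rw [hm]; exact hY1 i1
  have hmY : ∀ i, m ≤ Y i := fun i => by rw [hm]; exact hi1 i
  have hmd : 1 ≤ m ^ d := Real.one_le_rpow hm1 (by linarith)
  have hRm : 1 ≤ R * m ^ d := one_le_mul_of_one_le_of_one_le hR1 hmd
  have hX1 : 1 ≤ ⌊R * m ^ d⌋₊ := Nat.le_floor (by exact_mod_cast hRm)
  have hfin : {s : Fin k → ℕ | s ∈ W ∧ ∀ i, s i ≤ ⌊R * m ^ d⌋₊}.Finite := by
    refine (Set.Finite.pi' (t := fun _ : Fin k => Set.Iic ⌊R * m ^ d⌋₊) fun _ => Set.finite_Iic _).subset ?_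
    intro s hs j
    exact hs.2 j
  -- the windows
  obtain ⟨U, hU⟩ : ∃ U : (Fin k → ℕ) → Finset (Fin k → ℕ), U = fun s => Fintype.piFinset (fun i =>
      (Icc 1 (2 ^ (j i + 1))).filter (fun v : ℕ => |(s i : ℝ) - G i v| ≤ (Y i) ^ θ)) := ⟨_, rfl⟩
  have hUc : ∀ s, ((U s).card : ℝ) ≤ ∏ i, ((2 / a i + 1) * (Y i) ^ θ) := by
    intro s
    rw [hU, Fintype.card_piFinset]
    push_cast
    refine prod_le_prod (fun i _ => Nat.cast_nonneg _) (fun i _ => ?_)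
    have hYθ : 1 ≤ (Y i) ^ θ := Real.one_le_rpow (hY1 i) hθ
    have h1 := card_window (ha i) (hstep i) (s i) ((Y i) ^ θ) (by linarith)
      ((Icc 1 (2 ^ (j i + 1))).filter (fun v : ℕ => |(s i : ℝ) - G i v| ≤ (Y i) ^ θ)) (fun v hv => by
        rw [mem_filter, mem_Icc] at hv
        exact ⟨hv.1.1, hv.2⟩)
    refine h1.trans ?_
    have e : (2 / a i + 1) * (Y i) ^ θ = 2 * (Y i) ^ θ / a i + (Y i) ^ θ := by ring
    rw [e]
    linarith
  have hsub : V ⊆ hfin.toFinset.biUnion U := by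
    intro n hn
    obtain ⟨⟨s, hs, hsn⟩, hnb⟩ := hV n hn
    have hn1 : ∀ i, (1 : ℝ) ≤ n i := by
      intro i
      have h1 : 1 ≤ 2 ^ j i := Nat.one_le_two_pow
      exact_mod_cast h1.trans (hnb i).1
    have hnY : ∀ i, (n i : ℝ) ≤ Y i := by
      intro i
      rw [← hYi]
      exact_mod_cast (hnb i).2
    have hnθ : ∀ i, (n i : ℝ) ^ θ ≤ (Y i) ^ θ := fun i => Real.rpow_le_rpow (by have := hn1 i; linarith) (hnY i) hθ
    rw [mem_biUnion]
    refine ⟨s, ?_, ?_⟩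
    · rw [Set.Finite.mem_toFinset]
      refine ⟨hs, fun i => Nat.le_floor ?_⟩
      have h1 : (s i : ℝ) ≤ κ * s i1 := by exact_mod_cast hcone s hs i i1
      have h2 := (abs_le.1 (hsn i1)).2
      have h3 : G i1 (n i1) ≤ |B i1| * m ^ d := by
        calc G i1 (n i1) ≤ B i1 * (n i1 : ℝ) ^ d := hB i1 _ (by exact_mod_cast hn1 i1)
          _ ≤ |B i1| * (n i1 : ℝ) ^ d := mul_le_mul_of_nonneg_right (le_abs_self _)
              (Real.rpow_nonneg (Nat.cast_nonneg _) _)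
          _ ≤ |B i1| * m ^ d := mul_le_mul_of_nonneg_left
              (Real.rpow_le_rpow (Nat.cast_nonneg _) (by rw [hm]; exact hnY i1) (by linarith)) (abs_nonneg _)
      have h4 : (n i1 : ℝ) ^ θ ≤ m ^ d := by
        refine (hnθ i1).trans ?_
        rw [← hm]
        exact Real.rpow_le_rpow_of_exponent_le hm1 (by linarith)
      have h5 : (s i1 : ℝ) ≤ (|B i1| + 1) * m ^ d := by
        have e : (|B i1| + 1) * m ^ d = |B i1| * m ^ d + m ^ d := by ring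
        rw [e]
        linarith
      have hκ : (0 : ℝ) ≤ κ := Nat.cast_nonneg _
      calc (s i : ℝ) ≤ κ * s i1 := h1
        _ ≤ ((κ : ℝ) + 1) * ((|B i1| + 1) * m ^ d) := by
            have : (0 : ℝ) ≤ s i1 := Nat.cast_nonneg _
            nlinarith
        _ = (((κ : ℝ) + 1) * (|B i1| + 1)) * m ^ d := by ring
        _ ≤ R * m ^ d := mul_le_mul_of_nonneg_right (hBR i1) (by linarith)
    · rw [hU, Fintype.mem_piFinset]
      intro i
      rw [mem_filter, mem_Icc]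
      refine ⟨⟨by exact_mod_cast hn1 i, (hnb i).2⟩, (hsn i).trans (hnθ i)⟩
  have hcard : (({s : Fin k → ℕ | s ∈ W ∧ ∀ i, s i ≤ ⌊R * m ^ d⌋₊}.ncard : ℕ) : ℝ) ≤
      C₀ * R ^ ρ * ∏ i, (Y i) ^ (d * ρ / k) := by
    refine (hW _ hX1).trans ?_
    have h1 : ((⌊R * m ^ d⌋₊ : ℕ) : ℝ) ^ ρ ≤ (R * m ^ d) ^ ρ :=
      Real.rpow_le_rpow (Nat.cast_nonneg _) (Nat.floor_le (by linarith)) hρ
    have h2 : (R * m ^ d) ^ ρ = R ^ ρ * m ^ (d * ρ) := by
      rw [Real.mul_rpow (by linarith) (by linarith), ← Real.rpow_mul (by linarith)]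
    have h3 : m ^ (d * ρ) ≤ ∏ i, (Y i) ^ (d * ρ / k) := by
      have h4 : m ^ (d * ρ) = ∏ _i : Fin k, m ^ (d * ρ / k) := by
        rw [prod_const, card_univ, Fintype.card_fin, ← Real.rpow_natCast, ← Real.rpow_mul (by linarith)]
        congr 1
        field_simp
      rw [h4]
      exact prod_le_prod (fun i _ => Real.rpow_nonneg (by linarith) _)
        (fun i _ => Real.rpow_le_rpow (by linarith) (hmY i) (by positivity))
    rw [mul_assoc]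
    refine mul_le_mul_of_nonneg_left (h1.trans ?_) hC₀
    rw [h2]
    exact mul_le_mul_of_nonneg_left h3 (Real.rpow_nonneg (by linarith) _)
  have hfinal : ((hfin.toFinset.biUnion U).card : ℝ) ≤
      (C₀ * R ^ ρ * ∏ i, (Y i) ^ (d * ρ / k)) * ∏ i, ((2 / a i + 1) * (Y i) ^ θ) := by
    have hp : 0 ≤ ∏ i, ((2 / a i + 1) * (Y i) ^ θ) := prod_nonneg fun i _ => by
      have := ha i
      have := hY1 i
      positivity
    calc ((hfin.toFinset.biUnion U).card : ℝ) ≤ ∑ s ∈ hfin.toFinset, ((U s).card : ℝ) := by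
          exact_mod_cast card_biUnion_le
      _ ≤ ∑ _s ∈ hfin.toFinset, ∏ i, ((2 / a i + 1) * (Y i) ^ θ) := sum_le_sum (fun s _ => hUc s)
      _ = (({s : Fin k → ℕ | s ∈ W ∧ ∀ i, s i ≤ ⌊R * m ^ d⌋₊}.ncard : ℕ) : ℝ) * ∏ i, ((2 / a i + 1) * (Y i) ^ θ) := by
          rw [sum_const, nsmul_eq_mul, ← Set.ncard_eq_toFinset_card _ hfin]
      _ ≤ _ := mul_le_mul_of_nonneg_right hcard hp
  calc (V.card : ℝ) ≤ ((hfin.toFinset.biUnion U).card : ℝ) := by exact_mod_cast card_le_card hsub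
    _ ≤ _ := hfinal
    _ = C₀ * R ^ ρ * (∏ i, (2 / a i + 1)) * ∏ i, ((2 : ℝ) ^ (j i + 1)) ^ (θ + d * ρ / k) := by
        simp only [hYi]
        rw [prod_mul_distrib]
        have e : ∏ i, (Y i) ^ (θ + d * ρ / k) = (∏ i, (Y i) ^ (d * ρ / k)) * ∏ i, (Y i) ^ θ := by
          rw [← prod_mul_distrib]
          refine prod_congr rfl fun i _ => ?_
          rw [← Real.rpow_add (by have := hY1 i; linarith)]
          congr 1
          ring
        rw [e]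
        ring

end Pool.Agent.T9h86.MZ
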