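import Pool.Agent.T9h86.MZ.Box
import Pool.Agent.T9h86.MZ.Lin
import Pool.Agent.N760.IT.C

/-!
# Tuples of members of orbits of Euler's function keep away from thin sets of tuples

The case of one variable is `Pool.Agent.N760.IT` (helper760): for almost all `m` the number `f (φ_j m)` is not in a given set
with a power saving, uniformly in the set. The uniformity gives the tuples by induction on their length, for sets which have few
elements in all dyadic boxes.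
-/

set_option autoImplicit false

namespace Pool.Agent.T9h86.MZ

open Finset Classical
open Pool.Agent.N733.TG (LM Expanding)
open Pool.Agent.N760.IT (Few densW orb)
open Pool.Agent.N760.SC (BadTuples log_count)

/-- at most `C ∏ (2 ^ (j_i + 1)) ^ β` elements of `W` in the dyadic box of `j` -/
def BoxFew {k : ℕ} (C β : ℝ) (W : Set (Fin k → ℕ)) : Prop :=
  ∀ (j : Fin k → ℕ) (V : Finset (Fin k → ℕ)), (∀ n ∈ V, n ∈ W ∧ ∀ i, 2 ^ j i ≤ n i ∧ n i < 2 ^ (j i + 1)) →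
    (V.card : ℝ) ≤ C * ∏ i, ((2 : ℝ) ^ (j i + 1)) ^ β

/-- the elements of a set in a dyadic interval -/
noncomputable def dy (S : Set ℕ) (j : ℕ) : Finset ℕ := (Ico (2 ^ j) (2 ^ (j + 1))).filter (· ∈ S)

lemma mem_dy {S : Set ℕ} {j a : ℕ} : a ∈ dy S j ↔ (2 ^ j ≤ a ∧ a < 2 ^ (j + 1)) ∧ a ∈ S := by
  rw [dy, mem_filter, mem_Ico]

/-- a set of natural numbers with few elements in all dyadic intervals has few elements up to `X` -/
lemma few_of_dyadic {S : Set ℕ} {C β ε : ℝ} (hC : 0 ≤ C) (hβ : 0 ≤ β) (hβ1 : β ≤ 1) (hε : 0 < ε)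
    (h : ∀ j, ((dy S j).card : ℝ) ≤ C * ((2 : ℝ) ^ (j + 1)) ^ β) : Few ((2 / ε + 1) * (C * 2)) (β + ε) S := by
  intro X hX
  have hX1 : (1 : ℝ) ≤ X := by exact_mod_cast hX
  have hX0 : (0 : ℝ) < X := by linarith
  have hsub : (Icc 1 X).filter (fun a => a ∈ S) ⊆ (range (Nat.log 2 X + 1)).biUnion (dy S) := by
    intro a ha
    rw [mem_filter, mem_Icc] at ha
    rw [mem_biUnion]
    refine ⟨Nat.log 2 a, ?_, ?_⟩
    · rw [mem_range]
      exact Nat.lt_succ_of_le (Nat.log_mono_right ha.1.2)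
    · rw [mem_dy]
      exact ⟨⟨Nat.pow_log_le_self 2 (by omega), Nat.lt_pow_succ_log_self (by norm_num) _⟩, ha.2⟩
  have hterm : ∀ j ∈ range (Nat.log 2 X + 1), ((dy S j).card : ℝ) ≤ C * 2 * (X : ℝ) ^ β := by
    intro j hj
    rw [mem_range] at hj
    have h2j : (2 : ℝ) ^ j ≤ X := by
      have h1 : 2 ^ j ≤ X := (Nat.pow_le_pow_right (by norm_num) (by omega)).trans
        (Nat.pow_log_le_self 2 (by omega : X ≠ 0))
      exact_mod_cast h1
    have h2 : ((2 : ℝ) ^ (j + 1)) ^ β ≤ 2 * (X : ℝ) ^ β := by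
      calc ((2 : ℝ) ^ (j + 1)) ^ β ≤ (2 * (X : ℝ)) ^ β :=
            Real.rpow_le_rpow (by positivity) (by rw [pow_succ]; linarith) hβ
        _ = (2 : ℝ) ^ β * (X : ℝ) ^ β := Real.mul_rpow (by norm_num) hX0.le
        _ ≤ 2 * (X : ℝ) ^ β := by
            refine mul_le_mul_of_nonneg_right ?_ (by positivity)
            calc (2 : ℝ) ^ β ≤ (2 : ℝ) ^ (1 : ℝ) := Real.rpow_le_rpow_of_exponent_le (by norm_num) hβ1
              _ = 2 := Real.rpow_one _
    calc ((dy S j).card : ℝ) ≤ C * ((2 : ℝ) ^ (j + 1)) ^ β := h j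
      _ ≤ C * (2 * (X : ℝ) ^ β) := mul_le_mul_of_nonneg_left h2 hC
      _ = C * 2 * (X : ℝ) ^ β := by ring
  calc (((Icc 1 X).filter (fun a => a ∈ S)).card : ℝ) ≤ ∑ j ∈ range (Nat.log 2 X + 1), ((dy S j).card : ℝ) := by
        exact_mod_cast (card_le_card hsub).trans card_biUnion_le
    _ ≤ ∑ _j ∈ range (Nat.log 2 X + 1), C * 2 * (X : ℝ) ^ β := sum_le_sum hterm
    _ = (((Nat.log 2 X : ℕ) : ℝ) + 1) * (C * 2 * (X : ℝ) ^ β) := by
        rw [sum_const, card_range, nsmul_eq_mul]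
        push_cast
        ring
    _ ≤ ((2 / ε + 1) * (X : ℝ) ^ ε) * (C * 2 * (X : ℝ) ^ β) :=
        mul_le_mul_of_nonneg_right (log_count ε hε X hX) (by positivity)
    _ = (2 / ε + 1) * (C * 2) * ((X : ℝ) ^ β * (X : ℝ) ^ ε) := by ring
    _ = (2 / ε + 1) * (C * 2) * (X : ℝ) ^ (β + ε) := by rw [← Real.rpow_add hX0]

/-- the slice of `W` over `v` -/
def slice {k : ℕ} (W : Set (Fin (k + 1) → ℕ)) (v : Fin k → ℕ) : Set ℕ := {a | Fin.cons a v ∈ W}

/-- the points over which the slice is large in some dyadic interval -/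
def Big {k : ℕ} (θ : ℝ) (W : Set (Fin (k + 1) → ℕ)) : Set (Fin k → ℕ) :=
  {v | ∃ j : ℕ, ((2 : ℝ) ^ (j + 1)) ^ θ < ((dy (slice W v) j).card : ℝ)}

/-- there are few points with a large slice -/
lemma big_few {k : ℕ} {C β θ : ℝ} (hC : 0 ≤ C) (hβθ : β < θ) {W : Set (Fin (k + 1) → ℕ)} (hW : BoxFew C β W) :
    BoxFew (C * (1 - (2 : ℝ) ^ (β - θ))⁻¹) β (Big θ W) := by
  intro j' V hV
  obtain ⟨r, hr⟩ : ∃ r : ℝ, r = (2 : ℝ) ^ (β - θ) := ⟨_, rfl⟩
  have hr0 : 0 < r := by rw [hr]; positivity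
  have hr1 : r < 1 := by
    rw [hr]
    exact Real.rpow_lt_one_of_one_lt_of_neg (by norm_num) (by linarith)
  obtain ⟨P, hP⟩ : ∃ P : ℝ, P = ∏ i, ((2 : ℝ) ^ (j' i + 1)) ^ β := ⟨_, rfl⟩
  have hP0 : 0 ≤ P := by rw [hP]; exact prod_nonneg fun i _ => by positivity
  rw [← hr, ← hP]
  have hch : ∀ v : Fin k → ℕ, ∃ j : ℕ, v ∈ V → ((2 : ℝ) ^ (j + 1)) ^ θ < ((dy (slice W v) j).card : ℝ) := by
    intro v
    by_cases hv : v ∈ V
    · obtain ⟨j, hj⟩ := (hV v hv).1
      exact ⟨j, fun _ => hj⟩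
    · exact ⟨0, fun h => absurd h hv⟩
  choose J hJ using hch
  have hfibre : ∀ j, ((V.filter (fun v => J v = j)).card : ℝ) ≤ C * P * r ^ j := by
    intro j
    obtain ⟨Vj, hVj⟩ : ∃ Vj, Vj = V.filter (fun v => J v = j) := ⟨_, rfl⟩
    rw [← hVj]
    have hVj' : ∀ v ∈ Vj, v ∈ V ∧ J v = j := by
      intro v hv
      rw [hVj, mem_filter] at hv
      exact hv
    obtain ⟨T, hT⟩ : ∃ T : Finset (Fin (k + 1) → ℕ), T = Vj.biUnion (fun v => (dy (slice W v) j).image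
      (fun a => (Fin.cons a v : Fin (k + 1) → ℕ))) := ⟨_, rfl⟩
    have hTc : ((Vj.card : ℕ) : ℝ) * ((2 : ℝ) ^ (j + 1)) ^ θ ≤ (T.card : ℝ) := by
      have h1 : T.card = ∑ v ∈ Vj, ((dy (slice W v) j).image (fun a => (Fin.cons a v : Fin (k + 1) → ℕ))).card := by
        rw [hT]
        refine card_biUnion fun v _ v' _ hvv => ?_
        rw [Function.onFun, Finset.disjoint_left]
        intro s hs hs'
        rw [mem_image] at hs hs'
        obtain ⟨a, -, rfl⟩ := hs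
        obtain ⟨a', -, ha'⟩ := hs'
        have := congrArg Fin.tail ha'
        rw [Fin.tail_cons, Fin.tail_cons] at this
        exact hvv this.symm
      have h2 : ∀ v ∈ Vj, ((2 : ℝ) ^ (j + 1)) ^ θ ≤
          (((dy (slice W v) j).image (fun a => (Fin.cons a v : Fin (k + 1) → ℕ))).card : ℝ) := by
        intro v hv
        rw [card_image_of_injective _ (fun a b hab => by
          have := congrFun hab 0
          simpa using this)]
        obtain ⟨h3, h4⟩ := hVj' v hv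
        have := hJ v h3
        rw [h4] at this
        exact this.le
      rw [h1, Nat.cast_sum, ← nsmul_eq_mul, ← sum_const]
      exact sum_le_sum h2
    have hTW : (T.card : ℝ) ≤ C * (((2 : ℝ) ^ (j + 1)) ^ β * P) := by
      have h1 := hW (Fin.cons j j') T (fun s hs => by
        rw [hT, mem_biUnion] at hs
        obtain ⟨v, hv, hs⟩ := hs
        rw [mem_image] at hs
        obtain ⟨a, ha, rfl⟩ := hs
        rw [mem_dy] at ha
        refine ⟨ha.2, fun i => ?_⟩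
        refine Fin.cases ?_ (fun l => ?_) i
        · rw [Fin.cons_zero, Fin.cons_zero]
          exact ha.1
        · rw [Fin.cons_succ, Fin.cons_succ]
          exact (hV v (hVj' v hv).1).2 l)
      rw [Fin.prod_univ_succ] at h1
      simp only [Fin.cons_zero, Fin.cons_succ] at h1
      rw [hP]
      exact h1
    have h2j0 : (0 : ℝ) < (2 : ℝ) ^ (j + 1) := by positivity
    have hpos : 0 < ((2 : ℝ) ^ (j + 1)) ^ θ := Real.rpow_pos_of_pos h2j0 _
    have e : ((2 : ℝ) ^ (j + 1)) ^ β = ((2 : ℝ) ^ (j + 1)) ^ θ * r ^ (j + 1) := by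
      have e1 : r ^ (j + 1) = ((2 : ℝ) ^ (j + 1)) ^ (β - θ) := by
        rw [hr, ← Real.rpow_natCast, ← Real.rpow_mul (by norm_num), mul_comm, Real.rpow_mul (by norm_num),
          Real.rpow_natCast]
      rw [e1, ← Real.rpow_add h2j0]
      congr 1
      ring
    have h3 : (Vj.card : ℝ) ≤ C * P * r ^ (j + 1) := by
      rw [← mul_le_mul_iff_left₀ hpos]
      refine (hTc.trans hTW).trans (le_of_eq ?_)
      rw [e]
      ring
    refine h3.trans (mul_le_mul_of_nonneg_left ?_ (by positivity))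
    exact pow_le_pow_of_le_one hr0.le hr1.le (by omega)
  have hmaps : ∀ v ∈ V, J v ∈ V.image J := fun v hv => mem_image_of_mem _ hv
  calc (V.card : ℝ) = ∑ j ∈ V.image J, ((V.filter (fun v => J v = j)).card : ℝ) := by
        exact_mod_cast card_eq_sum_card_fiberwise hmaps
    _ ≤ ∑ j ∈ V.image J, C * P * r ^ j := sum_le_sum fun j _ => hfibre j
    _ = C * P * ∑ j ∈ V.image J, r ^ j := by rw [mul_sum]
    _ ≤ C * P * (1 - r)⁻¹ := by
        refine mul_le_mul_of_nonneg_left ?_ (by positivity)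
        rw [← tsum_geometric_of_lt_one hr0.le hr1]
        exact (summable_geometric_of_lt_one hr0.le hr1).sum_le_tsum _ (fun j _ => by positivity)
    _ = C * (1 - r)⁻¹ * P := by ring

/-- **Tuples of members of orbits.** -/
theorem dens_tuples : ∀ k : ℕ, ∀ f : Fin (k + 1) → ℕ → ℕ, (∀ i, LM (f i)) → ∀ (β : ℝ), 0 ≤ β → β < 1 →
    ∀ (C : ℝ), 0 ≤ C → ∀ (J : Fin (k + 1) → ℕ) (ε : ℝ), 0 < ε → ∃ N₀ : ℕ, ∀ N : ℕ, N₀ ≤ N →
    ∀ W : Set (Fin (k + 1) → ℕ), BoxFew C β W →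
    (((Fintype.piFinset fun _ : Fin (k + 1) => Icc 1 N).filter
      (fun m => (fun i => orb (f i) (J i) (m i)) ∈ W)).card : ℝ) ≤ ε * (N : ℝ) ^ (k + 1) := by
  intro k
  induction k with
  | zero =>
    intro f hf β hβ0 hβ1 C hC J ε hε
    have hone : ∀ i : Fin (0 + 1), i = 0 := fun i => Fin.ext (by omega)
    obtain ⟨δ, hδ⟩ : ∃ δ : ℝ, δ = (1 - β) / 2 := ⟨_, rfl⟩
    have hδ0 : 0 < δ := by rw [hδ]; linarith
    obtain ⟨N₀, hN₀⟩ := densW (hf 0) (θ := β + δ) (by linarith) (by rw [hδ]; linarith) ((2 / δ + 1) * (C * 2)) (J 0) ε hε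
    refine ⟨N₀, fun N hN W hW => ?_⟩
    have h1 := hN₀ N hN {a | (fun _ : Fin 1 => a) ∈ W} (few_of_dyadic hC hβ0 hβ1.le hδ0 fun j => by
      have h2 := hW (fun _ => j) ((dy {a | (fun _ : Fin 1 => a) ∈ W} j).image (fun a => (fun _ : Fin 1 => a))) (by
        intro n hn
        rw [mem_image] at hn
        obtain ⟨a, ha, rfl⟩ := hn
        rw [mem_dy] at ha
        exact ⟨ha.2, fun _ => ha.1⟩)
      rw [card_image_of_injective _ (fun a b hab => congrFun hab 0)] at h2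
      simpa using h2)
    refine le_trans ?_ (h1.trans (le_of_eq (by simp)))
    rw [Nat.cast_le]
    refine card_le_card_of_injOn (fun m => m 0) ?_ ?_
    · intro m hm
      rw [mem_coe, mem_filter, Fintype.mem_piFinset] at hm
      rw [mem_coe, mem_filter]
      refine ⟨hm.1 0, ?_⟩
      have h2 : (fun i => orb (f i) (J i) (m i)) = (fun _ : Fin 1 => f 0 (Nat.totient^[J 0] (m 0))) := by
        funext i
        rw [hone i]
        rfl
      rw [h2] at hm
      exact hm.2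
    · intro m _ m' _ h
      funext i
      rw [hone i]
      exact h
  | succ k ih =>
    intro f hf β hβ0 hβ1 C hC J ε hε
    obtain ⟨δ, hδ⟩ : ∃ δ : ℝ, δ = (1 - β) / 3 := ⟨_, rfl⟩
    have hδ0 : 0 < δ := by rw [hδ]; linarith
    have hδ1 : β + δ + δ < 1 := by rw [hδ]; linarith
    have hr1 : (2 : ℝ) ^ (β - (β + δ)) < 1 := Real.rpow_lt_one_of_one_lt_of_neg (by norm_num) (by linarith)
    have hC' : 0 ≤ C * (1 - (2 : ℝ) ^ (β - (β + δ)))⁻¹ := mul_nonneg hC (inv_nonneg.2 (by linarith))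
    obtain ⟨N₁, hN₁⟩ := ih (fun i => f i.succ) (fun i => hf i.succ) β hβ0 hβ1 _ hC'
      (fun i => J i.succ) (ε / 2) (by positivity)
    obtain ⟨N₂, hN₂⟩ := densW (hf 0) (θ := β + δ + δ) (by linarith) hδ1 ((2 / δ + 1) * (1 * 2)) (J 0) (ε / 2)
      (by positivity)
    refine ⟨max N₁ N₂, fun N hN W hW => ?_⟩
    have h1 := hN₁ N (le_trans (le_max_left _ _) hN) (Big (β + δ) W) (big_few hC (by linarith) hW)
    have h2 := hN₂ N (le_trans (le_max_right _ _) hN)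
    obtain ⟨B, hB⟩ : ∃ B : Finset (Fin (k + 1 + 1) → ℕ), B = (Fintype.piFinset fun _ : Fin (k + 1 + 1) => Icc 1 N).filter
      (fun m => (fun i => orb (f i) (J i) (m i)) ∈ W) := ⟨_, rfl⟩
    rw [← hB]
    obtain ⟨M, hM⟩ : ∃ M : Finset (Fin (k + 1) → ℕ), M = Fintype.piFinset fun _ : Fin (k + 1) => Icc 1 N := ⟨_, rfl⟩
    have hmaps : ∀ m ∈ B, Fin.tail m ∈ M := by
      intro m hm
      rw [hB, mem_filter, Fintype.mem_piFinset] at hm
      rw [hM, Fintype.mem_piFinset]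
      exact fun i => hm.1 i.succ
    have hfib0 : ∀ m' ∈ M, ((B.filter (fun m => Fin.tail m = m')).card : ℝ) ≤ N := by
      intro m' _
      have : (B.filter (fun m => Fin.tail m = m')).card ≤ (Icc 1 N).card := by
        refine card_le_card_of_injOn (fun m => m 0) ?_ ?_
        · intro m hm
          rw [mem_coe, mem_filter, hB, mem_filter, Fintype.mem_piFinset] at hm
          exact hm.1.1 0
        · intro m hm n hn h
          rw [mem_coe, mem_filter] at hm hn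
          rw [← Fin.cons_self_tail m, ← Fin.cons_self_tail n, hm.2, hn.2]
          have h' : m 0 = n 0 := h
          rw [h']
      rw [Nat.card_Icc] at this
      exact_mod_cast this.trans (by omega)
    have hfib1 : ∀ m' ∈ M, (fun i => orb (f i.succ) (J i.succ) (m' i)) ∉ Big (β + δ) W →
        ((B.filter (fun m => Fin.tail m = m')).card : ℝ) ≤ ε / 2 * N := by
      intro m' _ hm'
      have hfew := few_of_dyadic (S := slice W (fun i => orb (f i.succ) (J i.succ) (m' i))) (C := 1) (β := β + δ)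
        (ε := δ) zero_le_one (by linarith) (by linarith) hδ0 (fun j => by
          rw [one_mul]
          by_contra hcon
          rw [not_le] at hcon
          exact hm' ⟨j, hcon⟩)
      refine le_trans ?_ (h2 _ hfew)
      rw [Nat.cast_le]
      refine card_le_card_of_injOn (fun m => m 0) ?_ ?_
      · intro m hm
        rw [mem_coe, mem_filter, hB, mem_filter, Fintype.mem_piFinset] at hm
        obtain ⟨⟨hm1, hm2⟩, hm3⟩ := hm
        rw [mem_coe, mem_filter]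
        refine ⟨hm1 0, ?_⟩
        show Fin.cons (f 0 (Nat.totient^[J 0] (m 0))) (fun i => orb (f i.succ) (J i.succ) (m' i)) ∈ W
        have e : (Fin.cons (f 0 (Nat.totient^[J 0] (m 0))) (fun i => orb (f i.succ) (J i.succ) (m' i)) :
            Fin (k + 1 + 1) → ℕ) = fun i => orb (f i) (J i) (m i) := by
          funext i
          refine Fin.cases ?_ (fun l => ?_) i
          · rw [Fin.cons_zero]
            rfl
          · rw [Fin.cons_succ, ← hm3]
            rfl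
        rw [e]
        exact hm2
      · intro m hm n hn h
        rw [mem_coe, mem_filter] at hm hn
        rw [← Fin.cons_self_tail m, ← Fin.cons_self_tail n, hm.2, hn.2]
        have h' : m 0 = n 0 := h
        rw [h']
    have hMc : (M.card : ℝ) = (N : ℝ) ^ (k + 1) := by
      rw [hM, Fintype.card_piFinset, prod_const, card_univ, Fintype.card_fin, Nat.card_Icc]
      push_cast
      simp
    have h3 : (B.card : ℝ) = ∑ m' ∈ M, ((B.filter (fun m => Fin.tail m = m')).card : ℝ) := by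
      exact_mod_cast card_eq_sum_card_fiberwise hmaps
    have h4 : ∀ m' ∈ M, ((B.filter (fun m => Fin.tail m = m')).card : ℝ) ≤
        (if (fun i => orb (f i.succ) (J i.succ) (m' i)) ∈ Big (β + δ) W then (N : ℝ) else 0) + ε / 2 * N := by
      intro m' hm'
      split_ifs with h
      · have := hfib0 m' hm'
        have h5 : 0 ≤ ε / 2 * N := by positivity
        linarith
      · rw [zero_add]
        exact hfib1 m' hm' h
    calc (B.card : ℝ) = ∑ m' ∈ M, ((B.filter (fun m => Fin.tail m = m')).card : ℝ) := h3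
      _ ≤ ∑ m' ∈ M, ((if (fun i => orb (f i.succ) (J i.succ) (m' i)) ∈ Big (β + δ) W then (N : ℝ) else 0) +
          ε / 2 * N) := sum_le_sum h4
      _ = (((M.filter (fun m' => (fun i => orb (f i.succ) (J i.succ) (m' i)) ∈ Big (β + δ) W)).card : ℕ) : ℝ) * N +
          (N : ℝ) ^ (k + 1) * (ε / 2 * N) := by
          rw [sum_add_distrib, sum_const, nsmul_eq_mul, hMc, ← sum_filter, sum_const, nsmul_eq_mul]
      _ ≤ (ε / 2 * (N : ℝ) ^ (k + 1)) * N + (N : ℝ) ^ (k + 1) * (ε / 2 * N) := by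
          rw [hM]
          exact add_le_add (mul_le_mul_of_nonneg_right h1 (Nat.cast_nonneg _)) le_rfl
      _ = ε * (N : ℝ) ^ (k + 1 + 1) := by ring

/-- **Main tool.** Let `W` have at most `O_ε(X ^ (k - 1 + ε))` elements with all coordinates at most `X`, all coordinates of an
element of `W` comparable, and let `G_i` be expanding of growth `d`, `d (k - 1) + k θ < k`. For all but `ε N ^ k` of the
`m ∈ [1, N] ^ k`, for all `j_i ≤ J`, no element `s` of `W` satisfies `|s_i - G_i n_i| ≤ n_i ^ θ` for all `i`, where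
`n_i = f_i (φ_{j_i} (m_i))`. -/
theorem orb_tuples {k : ℕ} (hk : 1 ≤ k) {W : Set (Fin k → ℕ)} {κ : ℕ} (hcone : Cone κ W)
    (hW : ∀ ε : ℝ, 0 < ε → ∃ C₀ : ℝ, 0 ≤ C₀ ∧ ∀ X : ℕ, 1 ≤ X →
      ({s : Fin k → ℕ | s ∈ W ∧ ∀ i, s i ≤ X}.ncard : ℝ) ≤ C₀ * (X : ℝ) ^ ((k : ℝ) - 1 + ε))
    {f : Fin k → ℕ → ℕ} (hf : ∀ i, LM (f i))
    {G : Fin k → ℕ → ℝ} {d : ℝ} (hG : ∀ i, Expanding (G i) d) {θ : ℝ} (hθ : 0 ≤ θ)
    (h1 : d * ((k : ℝ) - 1) + k * θ < k) (J : ℕ) (ε : ℝ) (hε : 0 < ε) :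
    ∃ N₀ : ℕ, ∀ N : ℕ, N₀ ≤ N →
      (({m : Fin k → ℕ | (∀ i, 1 ≤ m i ∧ m i ≤ N) ∧
        ∃ j : Fin k → ℕ, (∀ i, j i ≤ J) ∧ (fun i => orb (f i) (j i) (m i)) ∈ NearGT W G θ}.ncard : ℕ) : ℝ) ≤
        ε * (N : ℝ) ^ k := by
  have hk1 : (1 : ℝ) ≤ k := by exact_mod_cast hk
  have i0 : Fin k := ⟨0, by omega⟩
  have hd : 1 ≤ d := (hG i0).one_le
  have hd0 : 0 ≤ d * ((k : ℝ) - 1) := mul_nonneg (by linarith) (by linarith)
  obtain ⟨β, hβ⟩ : ∃ β : ℝ, β = d * ((k : ℝ) - 1) + k * θ := ⟨_, rfl⟩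
  rw [← hβ] at h1
  obtain ⟨δ, hδ⟩ : ∃ δ : ℝ, δ = (k - β) / 2 := ⟨_, rfl⟩
  have hδ0 : 0 < δ := by rw [hδ]; linarith
  have hθ1 : θ ≤ 1 := by
    have : 0 ≤ k * θ := by positivity
    rw [hβ] at h1
    nlinarith
  obtain ⟨C₀, hC₀, hcount⟩ := hW (δ / d) (by positivity)
  obtain ⟨C₁, hC₁, hbox⟩ := box_count hk hcone (ρ := (k : ℝ) - 1 + δ / d) (by have : 0 < δ / d := by positivity
                                                                              linarith) hC₀ hcount hG hθ hθ1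
  obtain ⟨σ, hσ⟩ : ∃ σ : ℝ, σ = θ + d * ((k : ℝ) - 1 + δ / d) / k := ⟨_, rfl⟩
  have hkσ : k * σ = β + δ := by
    rw [hσ, hβ]
    field_simp
    ring
  have hβ0 : 0 ≤ β := by rw [hβ]; positivity
  have hσ0 : 0 ≤ σ := by
    by_contra hcon
    rw [not_le] at hcon
    nlinarith
  have hσ1 : σ < 1 := by
    by_contra hcon
    rw [not_lt] at hcon
    nlinarith
  rw [← hσ] at hbox
  have hboxfew : BoxFew C₁ σ (NearGT W G θ) := fun j V hV => hbox j V fun n hn =>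
    ⟨(hV n hn).1, fun i => ⟨((hV n hn).2 i).1, ((hV n hn).2 i).2.le⟩⟩
  obtain ⟨k', rfl⟩ : ∃ k', k = k' + 1 := ⟨k - 1, by omega⟩
  obtain ⟨I, hI⟩ : ∃ I : Finset (Fin (k' + 1) → ℕ), I = Fintype.piFinset fun _ => range (J + 1) := ⟨_, rfl⟩
  have hI0 : 0 < I.card := by
    rw [hI, Fintype.card_piFinset]
    exact prod_pos fun i _ => by rw [card_range]; omega
  have hIr : (0 : ℝ) < I.card := by exact_mod_cast hI0
  choose N₀ hN₀ using fun j : Fin (k' + 1) → ℕ => dens_tuples k' f hf σ hσ0 hσ1 C₁ hC₁ j (ε / I.card) (by positivity)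
  refine ⟨I.sup N₀, fun N hN => ?_⟩
  have hsub : {m : Fin (k' + 1) → ℕ | (∀ i, 1 ≤ m i ∧ m i ≤ N) ∧
        ∃ j : Fin (k' + 1) → ℕ, (∀ i, j i ≤ J) ∧ (fun i => orb (f i) (j i) (m i)) ∈ NearGT W G θ} ⊆
      ((I.biUnion (fun j => (Fintype.piFinset fun _ : Fin (k' + 1) => Icc 1 N).filter
        (fun m => (fun i => orb (f i) (j i) (m i)) ∈ NearGT W G θ)) : Finset (Fin (k' + 1) → ℕ)) :
        Set (Fin (k' + 1) → ℕ)) := by
    rintro m ⟨hm, j, hj, h⟩
    rw [mem_coe, mem_biUnion]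
    refine ⟨j, ?_, ?_⟩
    · rw [hI, Fintype.mem_piFinset]
      intro i
      rw [mem_range]
      exact Nat.lt_succ_of_le (hj i)
    · rw [mem_filter, Fintype.mem_piFinset]
      exact ⟨fun i => mem_Icc.2 (hm i), h⟩
  have h2 := Set.ncard_le_ncard hsub (Finset.finite_toSet _)
  rw [Set.ncard_coe_finset] at h2
  calc (({m : Fin (k' + 1) → ℕ | (∀ i, 1 ≤ m i ∧ m i ≤ N) ∧
        ∃ j : Fin (k' + 1) → ℕ, (∀ i, j i ≤ J) ∧ (fun i => orb (f i) (j i) (m i)) ∈ NearGT W G θ}.ncard : ℕ) : ℝ)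
      ≤ ((I.biUnion (fun j => (Fintype.piFinset fun _ : Fin (k' + 1) => Icc 1 N).filter
        (fun m => (fun i => orb (f i) (j i) (m i)) ∈ NearGT W G θ))).card : ℝ) := by exact_mod_cast h2
    _ ≤ ∑ j ∈ I, (((Fintype.piFinset fun _ : Fin (k' + 1) => Icc 1 N).filter
        (fun m => (fun i => orb (f i) (j i) (m i)) ∈ NearGT W G θ)).card : ℝ) := by exact_mod_cast card_biUnion_le
    _ ≤ ∑ _j ∈ I, ε / I.card * (N : ℝ) ^ (k' + 1) := sum_le_sum fun j hj =>
        hN₀ j N ((le_sup (f := N₀) hj).trans hN) _ hboxfew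
    _ = ε * (N : ℝ) ^ (k' + 1) := by
        rw [sum_const, nsmul_eq_mul]
        field_simp

/-- **Properties which are bad for few tuples at every scale.** -/
theorem orb_powers {k : ℕ} (hk : 1 ≤ k) {E : ℝ → (Fin k → ℕ) → Prop} (hmono : ∀ H H' s, H ≤ H' → E H s → E H' s)
    (hfew : FewAll E) {f : Fin k → ℕ → ℕ} (hf : ∀ i, LM (f i)) {G : Fin k → ℕ → ℝ} {d : ℝ} (hG : ∀ i, Expanding (G i) d)
    {θ : ℝ} (hθ : 0 ≤ θ) (h1 : d * ((k : ℝ) - 1) + k * θ < k) (κ : ℕ) (C : ℝ) (J : ℕ) (ε : ℝ) (hε : 0 < ε) :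
    ∃ N₀ : ℕ, ∀ N : ℕ, N₀ ≤ N →
      (({m : Fin k → ℕ | (∀ i, 1 ≤ m i ∧ m i ≤ N) ∧
        ¬ ∀ j : Fin k → ℕ, (∀ i, j i ≤ J) → ∀ (s : Fin k → ℕ) (T : ℕ), 1 ≤ T →
          (∀ i, T ≤ s i ∧ s i ≤ κ * T) →
          (∀ i, |(s i : ℝ) - G i (f i (Nat.totient^[j i] (m i)))| ≤ ((f i (Nat.totient^[j i] (m i)) : ℕ) : ℝ) ^ θ) →
          ¬ E (C ^ T) s}.ncard : ℕ) : ℝ) ≤ ε * (N : ℝ) ^ k := by
  obtain ⟨N₀, hN₀⟩ := orb_tuples hk (W := BadTuples κ (fun T s => E (C ^ T) s)) (κ := κ) (fun s hs i l => by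
      obtain ⟨T, -, hT, -⟩ := hs
      exact (hT i).2.trans (Nat.mul_le_mul_left κ (hT l).1))
    (fun ε hε => count_powers hk hmono hfew κ C ε hε) hf hG hθ h1 J ε hε
  refine ⟨N₀, fun N hN => le_trans ?_ (hN₀ N hN)⟩
  have hfin : {m : Fin k → ℕ | (∀ i, 1 ≤ m i ∧ m i ≤ N) ∧ ∃ j : Fin k → ℕ, (∀ i, j i ≤ J) ∧
      (fun i => orb (f i) (j i) (m i)) ∈ NearGT (BadTuples κ (fun T s => E (C ^ T) s)) G θ}.Finite := by
    refine (Set.Finite.pi' (t := fun _ : Fin k => Set.Iic N) fun _ => Set.finite_Iic _).subset ?_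
    intro p hp i
    exact (hp.1 i).2
  refine Nat.cast_le.2 (Set.ncard_le_ncard ?_ hfin)
  rintro m ⟨hm, h⟩
  refine ⟨hm, ?_⟩
  by_contra hcon
  push Not at hcon
  exact h fun j hj s T hT hs hw hE => hcon j hj ⟨s, ⟨T, hT, hs, hE⟩, hw⟩

end Pool.Agent.T9h86.MZ
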