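import Pool.Agent.T9h86.MZ.Box
import Pool.Agent.T9h86.MZ.Lin

/-!
# Tuples of orders of the subgroups of `F_p^*` which contain a small integer keep away from thin sets of tuples

For `k`-tuples of primes `p_i ≤ X`; the case `k = 1` is `Pool.Agent.T9h59.OR` (helper59). The number of the primes `p ≤ X` such
that a given `n` is the order of such a subgroup of `F_p^*` is at most `X / n` (the cofactors) and at most `X ^ c n log X` (the
prime factors of the numbers `a ^ n - 1`), so at most `X ^ (1 - (1 - c) (1 - σ) / 2) log X / n ^ σ` for every `0 ≤ σ ≤ 1`.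
-/

set_option autoImplicit false

namespace Pool.Agent.T9h86.MZ

open Finset Classical
open Pool.Agent.N733.TG (Expanding)
open Pool.Agent.T9h59.OR (SubOrder card_pf)
open Pool.Agent.N760.SC (BadTuples log_count)

/-- the primes `p ≤ X` such that `n` is the order of a subgroup of `F_p^*` which contains an integer `a`, `2 ≤ a ≤ X ^ c` -/
noncomputable def PP (c : ℝ) (X n : ℕ) : Finset ℕ := (Icc 1 X).filter (fun p => p.Prime ∧ SubOrder ((X : ℝ) ^ c) p n)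

lemma pp_card1 (c : ℝ) {X n : ℕ} (hn : 1 ≤ n) : (PP c X n).card ≤ X / n := by
  have h : PP c X n ⊆ (Icc 1 (X / n)).image (fun j => n * j + 1) := by
    intro p hp
    rw [PP, mem_filter, mem_Icc] at hp
    obtain ⟨⟨-, hpX⟩, hp1, hs⟩ := hp
    obtain ⟨-, ⟨j, hj⟩, -⟩ := hs.facts hp1
    have hp2 := hp1.two_le
    rw [mem_image]
    refine ⟨j, ?_, by omega⟩
    rw [mem_Icc]
    refine ⟨?_, ?_⟩
    · rcases Nat.eq_zero_or_pos j with h0 | h0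
      · rw [h0, mul_zero] at hj
        omega
      · exact h0
    · rw [Nat.le_div_iff_mul_le hn, mul_comm]
      omega
  refine (card_le_card h).trans (card_image_le.trans ?_)
  rw [Nat.card_Icc, Nat.add_sub_cancel]

lemma pp_card2 {c : ℝ} (hc1 : c < 1) {X n : ℕ} (hX : 1 ≤ X) (hn : 1 ≤ n) :
    (PP c X n).card ≤ ⌊(X : ℝ) ^ c⌋₊ * (n * (Nat.log 2 X + 1)) := by
  have hX1 : (1 : ℝ) ≤ X := by exact_mod_cast hX
  obtain ⟨A, hA⟩ : ∃ A : ℕ, A = ⌊(X : ℝ) ^ c⌋₊ := ⟨_, rfl⟩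
  have hAX : A ≤ X := by
    have h1 : (X : ℝ) ^ c ≤ (X : ℝ) ^ (1 : ℝ) := Real.rpow_le_rpow_of_exponent_le hX1 hc1.le
    rw [Real.rpow_one] at h1
    rw [hA]
    exact Nat.floor_le_of_le h1
  have hXL : X ≤ 2 ^ (Nat.log 2 X + 1) := (Nat.lt_pow_succ_log_self (by norm_num) X).le
  have h : PP c X n ⊆ (Icc 2 A).biUnion (fun a => (a ^ n - 1).primeFactors) := by
    intro p hp
    rw [PP, mem_filter, mem_Icc] at hp
    obtain ⟨-, hp1, hs⟩ := hp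
    obtain ⟨-, -, a, ha, haB, hpa⟩ := hs.facts hp1
    rw [mem_biUnion]
    refine ⟨a, ?_, ?_⟩
    · rw [mem_Icc, hA]
      exact ⟨ha, Nat.le_floor haB⟩
    · rw [Nat.mem_primeFactors]
      refine ⟨hp1, hpa, ?_⟩
      have h0 : 1 < a ^ n := Nat.one_lt_pow (by omega) (by omega)
      omega
  refine (card_le_card h).trans (card_biUnion_le.trans ?_)
  calc ∑ a ∈ Icc 2 A, (a ^ n - 1).primeFactors.card ≤ ∑ _a ∈ Icc 2 A, n * (Nat.log 2 X + 1) := by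
        refine sum_le_sum fun a ha => ?_
        rw [mem_Icc] at ha
        exact card_pf ha.1 hn ((ha.2.trans hAX).trans hXL)
    _ = (Icc 2 A).card * (n * (Nat.log 2 X + 1)) := by rw [sum_const, smul_eq_mul]
    _ ≤ A * (n * (Nat.log 2 X + 1)) := by
        apply Nat.mul_le_mul_right
        rw [Nat.card_Icc]
        omega
    _ = _ := by rw [hA]

/-- the number of the primes with a given order, interpolated -/
lemma pp_weight {c : ℝ} (hc0 : 0 ≤ c) (hc1 : c < 1) {σ : ℝ} (hσ0 : 0 ≤ σ) (hσ1 : σ ≤ 1) {X n : ℕ} (hX : 1 ≤ X)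
    (hn : 1 ≤ n) : ((PP c X n).card : ℝ) ≤
      ((X : ℝ) ^ (1 - (1 - c) * (1 - σ) / 2) * ((Nat.log 2 X + 1 : ℕ) : ℝ)) * ((n : ℝ) ^ σ)⁻¹ := by
  have hX1 : (1 : ℝ) ≤ X := by exact_mod_cast hX
  have hX0 : (0 : ℝ) < X := by linarith
  have hn1 : (1 : ℝ) ≤ n := by exact_mod_cast hn
  have hn0 : (0 : ℝ) < n := by linarith
  obtain ⟨L, hL⟩ : ∃ L : ℝ, L = ((Nat.log 2 X + 1 : ℕ) : ℝ) := ⟨_, rfl⟩
  have hL1 : 1 ≤ L := by
    rw [hL]
    exact_mod_cast Nat.le_add_left 1 _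
  obtain ⟨x, hx⟩ : ∃ x : ℝ, x = ((PP c X n).card : ℝ) := ⟨_, rfl⟩
  have hx0 : 0 ≤ x := by rw [hx]; exact Nat.cast_nonneg _
  have h1 : x ≤ X / n := by
    rw [hx]
    exact (Nat.cast_le.2 (pp_card1 c hn)).trans Nat.cast_div_le
  have h2 : x ≤ (X : ℝ) ^ c * (n * L) := by
    rw [hx, hL]
    calc ((PP c X n).card : ℝ) ≤ ((⌊(X : ℝ) ^ c⌋₊ * (n * (Nat.log 2 X + 1)) : ℕ) : ℝ) := by
          exact_mod_cast pp_card2 hc1 hX hn
      _ = ((⌊(X : ℝ) ^ c⌋₊ : ℕ) : ℝ) * (n * ((Nat.log 2 X + 1 : ℕ) : ℝ)) := by push_cast; ring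
      _ ≤ _ := mul_le_mul_of_nonneg_right (Nat.floor_le (by positivity)) (by positivity)
  obtain ⟨u, hu⟩ : ∃ u : ℝ, u = (1 + σ) / 2 := ⟨_, rfl⟩
  have hu0 : 0 ≤ u := by rw [hu]; linarith
  have hu1 : 0 ≤ 1 - u := by rw [hu]; linarith
  have h3 : x = x ^ u * x ^ (1 - u) := by
    rcases eq_or_lt_of_le hx0 with h | h
    · rw [← h, Real.zero_rpow (by rw [hu]; linarith), zero_mul]
    · rw [← Real.rpow_add h]
      simp
  have h4 : x ^ u ≤ (X / n : ℝ) ^ u := Real.rpow_le_rpow hx0 h1 hu0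
  have h5 : x ^ (1 - u) ≤ ((X : ℝ) ^ c * (n * L)) ^ (1 - u) := Real.rpow_le_rpow hx0 h2 hu1
  have h6 : (X / n : ℝ) ^ u = (X : ℝ) ^ u * (n : ℝ) ^ (-u) := by
    rw [Real.div_rpow hX0.le hn0.le, Real.rpow_neg hn0.le]
    rfl
  have h7 : ((X : ℝ) ^ c * (n * L)) ^ (1 - u) = (X : ℝ) ^ (c * (1 - u)) * ((n : ℝ) ^ (1 - u) * L ^ (1 - u)) := by
    rw [Real.mul_rpow (by positivity) (by positivity), Real.mul_rpow hn0.le (by linarith), ← Real.rpow_mul hX0.le]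
  have h8 : L ^ (1 - u) ≤ L := by
    calc L ^ (1 - u) ≤ L ^ (1 : ℝ) := Real.rpow_le_rpow_of_exponent_le hL1 (by linarith)
      _ = L := Real.rpow_one _
  rw [← hx, ← hL, h3]
  calc x ^ u * x ^ (1 - u) ≤ ((X : ℝ) ^ u * (n : ℝ) ^ (-u)) * ((X : ℝ) ^ (c * (1 - u)) * ((n : ℝ) ^ (1 - u) * L ^ (1 - u))) := by
        rw [← h6, ← h7]
        exact mul_le_mul h4 h5 (by positivity) (by positivity)
    _ = ((X : ℝ) ^ u * (X : ℝ) ^ (c * (1 - u))) * ((n : ℝ) ^ (-u) * (n : ℝ) ^ (1 - u)) * L ^ (1 - u) := by ring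
    _ = (X : ℝ) ^ (1 - (1 - c) * (1 - σ) / 2) * ((n : ℝ) ^ σ)⁻¹ * L ^ (1 - u) := by
        rw [← Real.rpow_add hX0, ← Real.rpow_add hn0, ← Real.rpow_neg hn0.le]
        congr 3
        · rw [hu]; ring
        · rw [hu]; ring
    _ ≤ (X : ℝ) ^ (1 - (1 - c) * (1 - σ) / 2) * ((n : ℝ) ^ σ)⁻¹ * L := by gcongr
    _ = _ := by ring

/-- **The number of the exceptional tuples of primes.** -/
theorem total {k : ℕ} {W : Set (Fin k → ℕ)} {σ C₁ : ℝ} (hσ0 : 0 ≤ σ) (hσ1 : σ ≤ 1) (hC₁ : 0 ≤ C₁)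
    (hbox : ∀ (j : Fin k → ℕ) (V : Finset (Fin k → ℕ)),
      (∀ n ∈ V, n ∈ W ∧ ∀ i, 2 ^ j i ≤ n i ∧ n i ≤ 2 ^ (j i + 1)) →
      (V.card : ℝ) ≤ C₁ * ∏ i, ((2 : ℝ) ^ (j i + 1)) ^ σ)
    {c : ℝ} (hc0 : 0 ≤ c) (hc1 : c < 1) (X : ℕ) (hX : 1 ≤ X) :
    (({p : Fin k → ℕ | (∀ i, (p i).Prime ∧ p i ≤ X) ∧ ∃ n ∈ W, ∀ i, SubOrder ((X : ℝ) ^ c) (p i) (n i)}.ncard : ℕ) : ℝ) ≤
      (C₁ * 2 ^ k) * ((X : ℝ) ^ (1 - (1 - c) * (1 - σ) / 2)) ^ k * (((Nat.log 2 X + 1 : ℕ) : ℝ) ^ 2) ^ k := by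
  have hX1 : (1 : ℝ) ≤ X := by exact_mod_cast hX
  obtain ⟨L, hL⟩ : ∃ L : ℕ, L = Nat.log 2 X + 1 := ⟨_, rfl⟩
  obtain ⟨Q, hQ⟩ : ∃ Q : ℝ, Q = (X : ℝ) ^ (1 - (1 - c) * (1 - σ) / 2) * (L : ℝ) := ⟨_, rfl⟩
  have hQ0 : 0 ≤ Q := by rw [hQ]; positivity
  obtain ⟨bad, hbad⟩ : ∃ bad : Finset (Fin k → ℕ), bad = (Fintype.piFinset (fun _ : Fin k => Icc 1 X)).filter (· ∈ W) :=
    ⟨_, rfl⟩
  have hsub : {p : Fin k → ℕ | (∀ i, (p i).Prime ∧ p i ≤ X) ∧ ∃ n ∈ W, ∀ i, SubOrder ((X : ℝ) ^ c) (p i) (n i)} ⊆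
      ((bad.biUnion (fun n => Fintype.piFinset (fun i => PP c X (n i))) : Finset (Fin k → ℕ)) : Set (Fin k → ℕ)) := by
    rintro p ⟨hp, n, hn, hs⟩
    rw [mem_coe, mem_biUnion]
    refine ⟨n, ?_, ?_⟩
    · rw [hbad, mem_filter, Fintype.mem_piFinset]
      refine ⟨fun i => ?_, hn⟩
      obtain ⟨h1, h2, -⟩ := (hs i).facts (hp i).1
      rw [mem_Icc]
      refine ⟨h1, ?_⟩
      have h3 := (hp i).1.two_le
      have h4 := Nat.le_of_dvd (by omega) h2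
      have h5 := (hp i).2
      omega
    · rw [Fintype.mem_piFinset]
      intro i
      rw [PP, mem_filter, mem_Icc]
      exact ⟨⟨(hp i).1.one_lt.le, (hp i).2⟩, (hp i).1, hs i⟩
  have h1 := Set.ncard_le_ncard hsub (Finset.finite_toSet _)
  rw [Set.ncard_coe_finset] at h1
  have hbad1 : ∀ n ∈ bad, ∀ i, 1 ≤ n i ∧ n i ≤ X := by
    intro n hn i
    rw [hbad, mem_filter, Fintype.mem_piFinset] at hn
    exact mem_Icc.1 (hn.1 i)
  have hbadW : ∀ n ∈ bad, n ∈ W := by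
    intro n hn
    rw [hbad, mem_filter] at hn
    exact hn.2
  have h2 : ((bad.biUnion (fun n => Fintype.piFinset (fun i => PP c X (n i)))).card : ℝ) ≤
      Q ^ k * ∑ n ∈ bad, ∏ i, ((n i : ℝ) ^ σ)⁻¹ := by
    calc ((bad.biUnion (fun n => Fintype.piFinset (fun i => PP c X (n i)))).card : ℝ)
        ≤ ∑ n ∈ bad, ((Fintype.piFinset (fun i => PP c X (n i))).card : ℝ) := by exact_mod_cast card_biUnion_le
      _ ≤ ∑ n ∈ bad, ∏ i, (Q * ((n i : ℝ) ^ σ)⁻¹) := by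
          refine sum_le_sum fun n hn => ?_
          rw [Fintype.card_piFinset]
          push_cast
          refine prod_le_prod (fun i _ => Nat.cast_nonneg _) (fun i _ => ?_)
          rw [hQ, hL]
          exact pp_weight hc0 hc1 hσ0 hσ1 hX (hbad1 n hn i).1
      _ = Q ^ k * ∑ n ∈ bad, ∏ i, ((n i : ℝ) ^ σ)⁻¹ := by
          rw [mul_sum]
          refine sum_congr rfl fun n _ => ?_
          rw [prod_mul_distrib, prod_const, card_univ, Fintype.card_fin]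
  have h3 : ∑ n ∈ bad, ∏ i, ((n i : ℝ) ^ σ)⁻¹ ≤ (L : ℝ) ^ k * (C₁ * 2 ^ k) := by
    have hmaps : ∀ n ∈ bad, (fun i => Nat.log 2 (n i)) ∈ Fintype.piFinset (fun _ : Fin k => range L) := by
      intro n hn
      rw [Fintype.mem_piFinset]
      intro i
      rw [mem_range, hL]
      exact Nat.lt_succ_of_le (Nat.log_mono_right (hbad1 n hn i).2)
    rw [← sum_fiberwise_of_maps_to hmaps]
    calc ∑ j ∈ Fintype.piFinset (fun _ : Fin k => range L),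
          ∑ n ∈ bad.filter (fun n => (fun i => Nat.log 2 (n i)) = j), ∏ i, ((n i : ℝ) ^ σ)⁻¹
        ≤ ∑ _j ∈ Fintype.piFinset (fun _ : Fin k => range L), C₁ * 2 ^ k := by
          refine sum_le_sum fun j _ => ?_
          have hb := hbox j (bad.filter (fun n => (fun i => Nat.log 2 (n i)) = j)) (fun n hn => by
            rw [mem_filter] at hn
            refine ⟨hbadW n hn.1, fun i => ?_⟩
            have hj : Nat.log 2 (n i) = j i := congrFun hn.2 i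
            have hn1 := (hbad1 n hn.1 i).1
            rw [← hj]
            exact ⟨Nat.pow_log_le_self 2 (by omega), (Nat.lt_pow_succ_log_self (by norm_num) _).le⟩)
          have hterm : ∀ n ∈ bad.filter (fun n => (fun i => Nat.log 2 (n i)) = j),
              ∏ i, ((n i : ℝ) ^ σ)⁻¹ ≤ ∏ i, (((2 : ℝ) ^ (j i)) ^ σ)⁻¹ := by
            intro n hn
            rw [mem_filter] at hn
            refine prod_le_prod (fun i _ => by positivity) (fun i _ => ?_)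
            have hj : Nat.log 2 (n i) = j i := congrFun hn.2 i
            have hn1 := (hbad1 n hn.1 i).1
            have h5 : (2 : ℝ) ^ (j i) ≤ n i := by
              rw [← hj]
              exact_mod_cast Nat.pow_log_le_self 2 (by omega)
            exact inv_anti₀ (by positivity) (Real.rpow_le_rpow (by positivity) h5 hσ0)
          calc ∑ n ∈ bad.filter (fun n => (fun i => Nat.log 2 (n i)) = j), ∏ i, ((n i : ℝ) ^ σ)⁻¹
              ≤ ∑ _n ∈ bad.filter (fun n => (fun i => Nat.log 2 (n i)) = j), ∏ i, (((2 : ℝ) ^ (j i)) ^ σ)⁻¹ :=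
                sum_le_sum hterm
            _ = ((bad.filter (fun n => (fun i => Nat.log 2 (n i)) = j)).card : ℝ) * ∏ i, (((2 : ℝ) ^ (j i)) ^ σ)⁻¹ := by
                rw [sum_const, nsmul_eq_mul]
            _ ≤ (C₁ * ∏ i, ((2 : ℝ) ^ (j i + 1)) ^ σ) * ∏ i, (((2 : ℝ) ^ (j i)) ^ σ)⁻¹ :=
                mul_le_mul_of_nonneg_right hb (prod_nonneg fun i _ => by positivity)
            _ = C₁ * ∏ i : Fin k, (2 : ℝ) ^ σ := by
                rw [mul_assoc, ← prod_mul_distrib]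
                congr 1
                refine prod_congr rfl fun i _ => ?_
                rw [pow_succ, Real.mul_rpow (by positivity) (by norm_num)]
                have : ((2 : ℝ) ^ (j i)) ^ σ ≠ 0 := by positivity
                field_simp
            _ ≤ C₁ * 2 ^ k := by
                rw [prod_const, card_univ, Fintype.card_fin]
                refine mul_le_mul_of_nonneg_left (pow_le_pow_left₀ (by positivity) ?_ k) hC₁
                calc (2 : ℝ) ^ σ ≤ (2 : ℝ) ^ (1 : ℝ) := Real.rpow_le_rpow_of_exponent_le (by norm_num) hσ1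
                  _ = 2 := Real.rpow_one _
      _ = (L : ℝ) ^ k * (C₁ * 2 ^ k) := by
          rw [sum_const, Fintype.card_piFinset, prod_const, card_univ, Fintype.card_fin, card_range, nsmul_eq_mul]
          push_cast
          ring
  calc (({p : Fin k → ℕ | (∀ i, (p i).Prime ∧ p i ≤ X) ∧
        ∃ n ∈ W, ∀ i, SubOrder ((X : ℝ) ^ c) (p i) (n i)}.ncard : ℕ) : ℝ)
      ≤ ((bad.biUnion (fun n => Fintype.piFinset (fun i => PP c X (n i)))).card : ℝ) := by exact_mod_cast h1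
    _ ≤ Q ^ k * ((L : ℝ) ^ k * (C₁ * 2 ^ k)) := h2.trans (mul_le_mul_of_nonneg_left h3 (by positivity))
    _ = _ := by
        rw [hQ, ← hL, mul_pow, ← pow_mul, mul_comm 2 k, pow_mul]
        ring

/-- **Main tool.** Let `W` have at most `O_ε(X ^ (k - 1 + ε))` elements with all coordinates at most `X`, all coordinates of an
element of `W` comparable, and let `G_i` be expanding of growth `d`, `β = d (k - 1) + k θ < k`. For all `k`-tuples of primes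
`p_i ≤ X` but `O(X ^ (k - η))`, `η < (1 - c) (k - β) / 2`, for the orders `n_i` of ALL subgroups of the `F_{p_i}^*` which contain an
integer `a_i`, `2 ≤ a_i ≤ X ^ c`, no element `s` of `W` satisfies `|s_i - G_i n_i| ≤ n_i ^ θ` for all `i`. -/
theorem sub_tuples {k : ℕ} (hk : 1 ≤ k) {W : Set (Fin k → ℕ)} {κ : ℕ} (hcone : Cone κ W)
    (hW : ∀ ε : ℝ, 0 < ε → ∃ C₀ : ℝ, 0 ≤ C₀ ∧ ∀ X : ℕ, 1 ≤ X →
      ({s : Fin k → ℕ | s ∈ W ∧ ∀ i, s i ≤ X}.ncard : ℝ) ≤ C₀ * (X : ℝ) ^ ((k : ℝ) - 1 + ε))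
    {G : Fin k → ℕ → ℝ} {d : ℝ} (hG : ∀ i, Expanding (G i) d) {θ : ℝ} (hθ : 0 ≤ θ)
    (h1 : d * ((k : ℝ) - 1) + k * θ < k) {c η : ℝ} (hc0 : 0 ≤ c) (hc1 : c < 1)
    (hη : η < (1 - c) * (k - (d * ((k : ℝ) - 1) + k * θ)) / 2) :
    ∃ M : ℝ, ∀ X : ℕ, 1 ≤ X →
      (({p : Fin k → ℕ | (∀ i, (p i).Prime ∧ p i ≤ X) ∧
        ∃ n ∈ NearGT W G θ, ∀ i, SubOrder ((X : ℝ) ^ c) (p i) (n i)}.ncard : ℕ) : ℝ) ≤ M * (X : ℝ) ^ ((k : ℝ) - η) := by
  have hk1 : (1 : ℝ) ≤ k := by exact_mod_cast hk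
  have i0 : Fin k := ⟨0, by omega⟩
  have hd : 1 ≤ d := (hG i0).one_le
  have hd0 : 0 ≤ d * ((k : ℝ) - 1) := mul_nonneg (by linarith) (by linarith)
  obtain ⟨β, hβ⟩ : ∃ β : ℝ, β = d * ((k : ℝ) - 1) + k * θ := ⟨_, rfl⟩
  rw [← hβ] at h1 hη
  have hβ0 : 0 ≤ β := by rw [hβ]; positivity
  obtain ⟨D, hD⟩ : ∃ D : ℝ, D = (1 - c) * (k - β) / 2 - η := ⟨_, rfl⟩
  have hD0 : 0 < D := by rw [hD]; linarith
  obtain ⟨δ, hδ⟩ : ∃ δ : ℝ, δ = min D (k - β) := ⟨_, rfl⟩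
  have hδ0 : 0 < δ := by rw [hδ]; exact lt_min hD0 (by linarith)
  have hδ1 : δ ≤ D := by rw [hδ]; exact min_le_left _ _
  have hδ2 : δ ≤ k - β := by rw [hδ]; exact min_le_right _ _
  have hθ1 : θ ≤ 1 := by nlinarith
  obtain ⟨C₀, hC₀, hcount⟩ := hW (δ / d) (by positivity)
  obtain ⟨C₁, hC₁, hbox⟩ := box_count hk hcone (ρ := (k : ℝ) - 1 + δ / d) (by have : 0 < δ / d := by positivity
                                                                              linarith) hC₀ hcount hG hθ hθ1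
  obtain ⟨σ, hσ⟩ : ∃ σ : ℝ, σ = θ + d * ((k : ℝ) - 1 + δ / d) / k := ⟨_, rfl⟩
  have hkσ : k * σ = β + δ := by
    rw [hσ, hβ]
    field_simp
    ring
  have hσ0 : 0 ≤ σ := by
    by_contra hcon
    rw [not_le] at hcon
    nlinarith
  have hσ1 : σ ≤ 1 := by
    by_contra hcon
    rw [not_le] at hcon
    nlinarith
  rw [← hσ] at hbox
  obtain ⟨ε, hε⟩ : ∃ ε : ℝ, ε = D / (4 * k) := ⟨_, rfl⟩
  have hε0 : 0 < ε := by rw [hε]; positivity
  have hkε : 2 * k * ε = D / 2 := by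
    rw [hε]
    field_simp
    ring
  refine ⟨(C₁ * 2 ^ k) * ((2 / ε + 1) ^ 2) ^ k, fun X hX => ?_⟩
  have hX1 : (1 : ℝ) ≤ X := by exact_mod_cast hX
  have hX0 : (0 : ℝ) < X := by linarith
  have hL := log_count ε hε0 X hX
  have hL' : ((Nat.log 2 X + 1 : ℕ) : ℝ) ≤ (2 / ε + 1) * (X : ℝ) ^ ε := by
    push_cast
    exact hL
  refine (total hσ0 hσ1 hC₁ hbox hc0 hc1 X hX).trans ?_
  have e1 : (((X : ℝ) ^ (1 - (1 - c) * (1 - σ) / 2))) ^ k = (X : ℝ) ^ ((k : ℝ) - (1 - c) * (k - (β + δ)) / 2) := by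
    rw [← Real.rpow_natCast, ← Real.rpow_mul hX0.le]
    congr 1
    have : (1 - (1 - c) * (1 - σ) / 2) * (k : ℝ) = k - (1 - c) * (k - k * σ) / 2 := by ring
    rw [this, hkσ]
  have e2 : ((((2 / ε + 1) * (X : ℝ) ^ ε)) ^ 2) ^ k = ((2 / ε + 1) ^ 2) ^ k * (X : ℝ) ^ (2 * k * ε) := by
    rw [mul_pow, mul_pow]
    congr 1
    rw [← pow_mul, ← Real.rpow_natCast, ← Real.rpow_mul hX0.le]
    congr 1
    push_cast
    ring
  calc (C₁ * 2 ^ k) * ((X : ℝ) ^ (1 - (1 - c) * (1 - σ) / 2)) ^ k * (((Nat.log 2 X + 1 : ℕ) : ℝ) ^ 2) ^ k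
      ≤ (C₁ * 2 ^ k) * ((X : ℝ) ^ (1 - (1 - c) * (1 - σ) / 2)) ^ k * ((((2 / ε + 1) * (X : ℝ) ^ ε)) ^ 2) ^ k := by
        gcongr
    _ = (C₁ * 2 ^ k) * ((2 / ε + 1) ^ 2) ^ k *
        ((X : ℝ) ^ ((k : ℝ) - (1 - c) * (k - (β + δ)) / 2) * (X : ℝ) ^ (2 * k * ε)) := by
        rw [e1, e2]
        ring
    _ ≤ (C₁ * 2 ^ k) * ((2 / ε + 1) ^ 2) ^ k * (X : ℝ) ^ ((k : ℝ) - η) := by
        refine mul_le_mul_of_nonneg_left ?_ (by positivity)
        rw [← Real.rpow_add hX0]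
        refine Real.rpow_le_rpow_of_exponent_le hX1 ?_
        rw [hkε]
        have h5 : (1 - c) * δ ≤ 1 * D := mul_le_mul (by linarith) hδ1 hδ0.le zero_le_one
        have h6 : (1 - c) * (k - (β + δ)) / 2 = (1 - c) * (k - β) / 2 - (1 - c) * δ / 2 := by ring
        have h7 : (1 - c) * (k - β) / 2 = D + η := by rw [hD]; ring
        rw [h6, h7]
        linarith

/-- **Properties which are bad for few tuples at every scale.** -/
theorem sub_powers {k : ℕ} (hk : 1 ≤ k) {E : ℝ → (Fin k → ℕ) → Prop} (hmono : ∀ H H' s, H ≤ H' → E H s → E H' s)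
    (hfew : FewAll E) {G : Fin k → ℕ → ℝ} {d : ℝ} (hG : ∀ i, Expanding (G i) d) {θ : ℝ} (hθ : 0 ≤ θ)
    (h1 : d * ((k : ℝ) - 1) + k * θ < k) {c η : ℝ} (hc0 : 0 ≤ c) (hc1 : c < 1)
    (hη : η < (1 - c) * (k - (d * ((k : ℝ) - 1) + k * θ)) / 2) (κ : ℕ) (C : ℝ) :
    ∃ M : ℝ, ∀ X : ℕ, 1 ≤ X →
      (({p : Fin k → ℕ | (∀ i, (p i).Prime ∧ p i ≤ X) ∧
        ¬ ∀ n : Fin k → ℕ, (∀ i, SubOrder ((X : ℝ) ^ c) (p i) (n i)) → ∀ (s : Fin k → ℕ) (T : ℕ), 1 ≤ T →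
          (∀ i, T ≤ s i ∧ s i ≤ κ * T) → (∀ i, |(s i : ℝ) - G i (n i)| ≤ (n i : ℝ) ^ θ) → ¬ E (C ^ T) s}.ncard : ℕ) : ℝ) ≤
        M * (X : ℝ) ^ ((k : ℝ) - η) := by
  obtain ⟨M, hM⟩ := sub_tuples hk (W := BadTuples κ (fun T s => E (C ^ T) s)) (κ := κ) (fun s hs i l => by
      obtain ⟨T, -, hT, -⟩ := hs
      exact (hT i).2.trans (Nat.mul_le_mul_left κ (hT l).1))
    (fun ε hε => count_powers hk hmono hfew κ C ε hε) hG hθ h1 hc0 hc1 hη
  refine ⟨M, fun X hX => le_trans ?_ (hM X hX)⟩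
  have hfin : {p : Fin k → ℕ | (∀ i, (p i).Prime ∧ p i ≤ X) ∧
      ∃ n ∈ NearGT (BadTuples κ (fun T s => E (C ^ T) s)) G θ, ∀ i, SubOrder ((X : ℝ) ^ c) (p i) (n i)}.Finite := by
    refine (Set.Finite.pi' (t := fun _ : Fin k => Set.Iic X) fun _ => Set.finite_Iic _).subset ?_
    intro p hp i
    exact (hp.1 i).2
  refine Nat.cast_le.2 (Set.ncard_le_ncard ?_ hfin)
  rintro p ⟨hp, h⟩
  refine ⟨hp, ?_⟩
  by_contra hcon
  push Not at hcon
  refine h fun n hn s T hT hs hw hE => ?_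
  obtain ⟨i, hi⟩ := hcon n ⟨s, ⟨T, hT, hs, hE⟩, hw⟩
  exact hi (hn i)

end Pool.Agent.T9h86.MZ
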